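import Pool.Agent.R951.RS.Proof

/-!
# MP_7b644b_an: spectral radius of a row-stochastic matrix minus a diagonal matrix

There is a row-stochastic `20 × 20` matrix `A` and a diagonal matrix `E` with nonnegative entries and
`E(1) = 3` such that every eigenvalue of `A - E` has modulus strictly less than `1`.
-/

set_option autoImplicit false

open scoped Matrix

namespace Pool.Agent.Results.MP_7b644b_an.Counterexample

/-- `A` is row-stochastic: its entries are nonnegative and every row sums to `1`. -/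
def RowStochastic {n : ℕ} (A : Matrix (Fin n) (Fin n) ℝ) : Prop :=
  (∀ i j, 0 ≤ A i j) ∧ ∀ i, ∑ j, A i j = 1

/-- `μ` is a (complex) eigenvalue of the real matrix `M`. -/
def IsEigenvalue {n : ℕ} (M : Matrix (Fin n) (Fin n) ℝ) (μ : ℂ) : Prop :=
  ∃ v : Fin n → ℂ, v ≠ 0 ∧ (M.map Complex.ofReal) *ᵥ v = μ • v

/-- Negative answer to Q1 of MP_7b644b_an: there are `n`, a row-stochastic `n × n` matrix `A` and a
diagonal matrix with entries `E j` with `E i ≥ 3` for some `i` (and moreover `E j ≥ 0` for all `j`)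
such that every eigenvalue of `A - diag E` has modulus `< 1`. -/
theorem result : ∃ (n : ℕ) (A : Matrix (Fin n) (Fin n) ℝ) (E : Fin n → ℝ),
    RowStochastic A ∧ (∀ j, 0 ≤ E j) ∧ (∃ i, 3 ≤ E i) ∧
      ∀ μ : ℂ, IsEigenvalue (A - Matrix.diagonal E) μ → ‖μ‖ < 1 := by
  have hD := Pool.Agent.R951.RS.DD_pos
  refine ⟨20, Pool.Agent.R951.RS.A, Pool.Agent.R951.RS.E, ⟨?_, ?_⟩, ?_, ⟨0, ?_⟩, ?_⟩
  · intro i j
    have h1 : (0 : ℝ) ≤ (Pool.Agent.R951.RS.aij i j : ℝ) := by
      exact_mod_cast Pool.Agent.R951.RS.a_nonneg i j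
    exact div_nonneg h1 hD.le
  · intro i
    have h1 : ((∑ j, Pool.Agent.R951.RS.aij i j : ℤ) : ℝ) = (Pool.Agent.R951.RS.DD : ℝ) := by
      exact_mod_cast Pool.Agent.R951.RS.a_sum i
    simp only [Pool.Agent.R951.RS.A]
    rw [← Finset.sum_div]
    push_cast at h1
    rw [h1, div_self hD.ne']
  · intro j
    have h1 : (0 : ℝ) ≤ 80 * ((Pool.Agent.R951.RS.aij j j - Pool.Agent.R951.RS.nij j j : ℤ) : ℝ) +
        79 * Pool.Agent.R951.RS.DD := by
      exact_mod_cast Pool.Agent.R951.RS.e_nonneg j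
    have h2 : Pool.Agent.R951.RS.E j =
        (80 * ((Pool.Agent.R951.RS.aij j j - Pool.Agent.R951.RS.nij j j : ℤ) : ℝ) +
        79 * Pool.Agent.R951.RS.DD) / (80 * Pool.Agent.R951.RS.DD) := by
      rw [Pool.Agent.R951.RS.E]
      have := hD.ne'
      field_simp
    rw [h2]
    exact div_nonneg h1 (by positivity)
  · have h1 : (80 : ℝ) * ((Pool.Agent.R951.RS.aij 0 0 - Pool.Agent.R951.RS.nij 0 0 : ℤ) : ℝ) =
        161 * Pool.Agent.R951.RS.DD := by
      exact_mod_cast Pool.Agent.R951.RS.e_zero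
    have h2 : ((Pool.Agent.R951.RS.aij 0 0 - Pool.Agent.R951.RS.nij 0 0 : ℤ) : ℝ) =
        161 / 80 * Pool.Agent.R951.RS.DD := by linarith
    rw [Pool.Agent.R951.RS.E, h2, mul_div_assoc, div_self hD.ne']
    norm_num
  · rintro μ ⟨v, hv, h⟩
    exact Pool.Agent.R951.RS.main hv h

end Pool.Agent.Results.MP_7b644b_an.Counterexample
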