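import Mathlib
import Pool.Agent.R261.ST.Data

/-!
# MP_7b644b_an: the threshold `3` does not force spectral radius at least `1`

There is a row-stochastic `20 × 20` matrix `A` and a diagonal matrix `E` with nonnegative
diagonal, `E(1) = 3` and `E(j) ≤ 8/5` for the other indices `j`, such that all eigenvalues of
`A - E` have modulus at most `0.999`.  So the assertion of Q1 is false.
-/

set_option autoImplicit false

open scoped ENNReal

namespace Pool.Agent.Results.MP_7b644b_an.StochasticMinusDiagonal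

/-- `A` is row-stochastic. -/
def IsRowStochastic {n : ℕ} (A : Matrix (Fin n) (Fin n) ℝ) : Prop :=
  (∀ i j, 0 ≤ A i j) ∧ ∀ i, ∑ j, A i j = 1

/-- The spectral radius of a real matrix: the largest modulus of a complex eigenvalue. -/
noncomputable def rho {n : ℕ} (M : Matrix (Fin n) (Fin n) ℝ) : ℝ≥0∞ :=
  spectralRadius ℂ (M.map (algebraMap ℝ ℂ))

/-- The assertion of Q1. -/
def Q1 : Prop :=
  ∀ n : ℕ, 1 ≤ n → ∀ (A : Matrix (Fin n) (Fin n) ℝ) (e : Fin n → ℝ),
    IsRowStochastic A → (∃ i, 3 ≤ e i) → 1 ≤ rho (A - Matrix.diagonal e)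

open R261.ST

/-- the integer matrix -/
def Z : Matrix (Fin 20) (Fin 20) ℤ := mat 20 rows

/-- off-diagonal row sum -/
def off (i : Fin 20) : ℤ := ∑ j, (if j = i then 0 else Z i j)

/-- the stochastic matrix -/
noncomputable def Am : Matrix (Fin 20) (Fin 20) ℝ :=
  fun i j => if j = i then 1 - (off i : ℝ) / 10 ^ 40 else (Z i j : ℝ) / 10 ^ 40

/-- the diagonal -/
noncomputable def em (i : Fin 20) : ℝ := 1 - (off i : ℝ) / 10 ^ 40 - ((Z i i : ℝ) / 10 ^ 40 - 99 / 100)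

/-- the elementary checks, on lists -/
def chk (i : ℕ) : Bool :=
  let r := rows.getD i []
  let d := r.getD i 0
  let o := (r.sum - d)
  (r.set i 0).all (fun x => decide (0 ≤ x)) && decide (o ≤ 10 ^ 40) &&
    decide (0 ≤ 10 ^ 40 - o - d + 99 * 10 ^ 38) &&
    (if i = 0 then decide (10 ^ 40 - o - d + 99 * 10 ^ 38 = 3 * 10 ^ 40)
      else decide (10 * (10 ^ 40 - o - d + 99 * 10 ^ 38) ≤ 16 * 10 ^ 40))

theorem chk_all : ∀ i < 20, chk i = true := by decide +kernel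

theorem row_len (i : Fin 20) : (rows.getD i []).length = 20 := by
  have hi : (i : ℕ) < rows.length := by rw [rows_wf.1]; exact i.2
  rw [List.getD_eq_getElem _ _ hi]
  exact rows_wf.2 _ (List.getElem_mem hi)

theorem sum_getD (r : List ℤ) (n : ℕ) (h : r.length = n) : ∑ j : Fin n, r.getD j 0 = r.sum := by
  subst h
  rw [← List.sum_ofFn]
  congr 1
  refine List.ext_getElem (by simp) ?_
  intro i h1 h2
  simp

theorem off_eq (i : Fin 20) : off i = (rows.getD i []).sum - Z i i := by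
  have h1 := sum_getD (rows.getD i []) 20 (row_len i)
  rw [← h1]
  have h2 : ∀ j : Fin 20, (rows.getD (i : ℕ) []).getD (j : ℕ) 0 = Z i j := fun j => rfl
  simp only [h2]
  rw [off, eq_sub_iff_add_eq]
  have h3 : Z i i = ∑ j, (if j = i then Z i j else 0) := by
    rw [Finset.sum_ite_eq' Finset.univ i (fun j => Z i j)]
    simp
  rw [h3, ← Finset.sum_add_distrib]
  refine Finset.sum_congr rfl ?_
  intro j _
  split_ifs <;> simp

theorem nonneg_off (i j : Fin 20) (hij : j ≠ i) : 0 ≤ Z i j := by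
  have h := chk_all i i.2
  simp only [chk, Bool.and_eq_true] at h
  have h1 := h.1.1.1
  rw [List.all_eq_true] at h1
  have hj : (j : ℕ) < ((rows.getD i []).set i 0).length := by
    rw [List.length_set, row_len]; exact j.2
  have h2 := h1 _ (List.getElem_mem hj)
  rw [List.getElem_set_ne (fun h => hij (Fin.ext h.symm))] at h2
  rw [decide_eq_true_eq] at h2
  show 0 ≤ (rows.getD i []).getD j 0
  rw [List.getD_eq_getElem _ _ (by rw [row_len]; exact j.2)]
  exact h2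

theorem off_le (i : Fin 20) : off i ≤ 10 ^ 40 := by
  have h := chk_all i i.2
  simp only [chk, Bool.and_eq_true] at h
  have h1 := h.1.1.2
  rw [decide_eq_true_eq] at h1
  rw [off_eq]
  exact h1

theorem em_nonneg (i : Fin 20) : 0 ≤ 10 ^ 40 - off i - Z i i + 99 * 10 ^ 38 := by
  have h := chk_all i i.2
  simp only [chk, Bool.and_eq_true] at h
  have h1 := h.1.2
  rw [decide_eq_true_eq] at h1
  rw [off_eq]
  exact h1

theorem em_zero : 10 ^ 40 - off 0 - Z 0 0 + 99 * 10 ^ 38 = 3 * 10 ^ 40 := by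
  have h := chk_all 0 (by norm_num)
  simp only [chk, Bool.and_eq_true, if_true] at h
  have h1 := h.2
  rw [decide_eq_true_eq] at h1
  rw [off_eq]
  exact h1

theorem em_le (i : Fin 20) (hi : i ≠ 0) :
    10 * (10 ^ 40 - off i - Z i i + 99 * 10 ^ 38) ≤ 16 * 10 ^ 40 := by
  have h := chk_all i i.2
  have hi' : (i : ℕ) ≠ 0 := fun h => hi (Fin.ext h)
  simp only [chk, Bool.and_eq_true, if_neg hi'] at h
  have h1 := h.2
  rw [decide_eq_true_eq] at h1
  rw [off_eq]
  exact h1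

theorem em_cast (i : Fin 20) :
    em i = ((10 ^ 40 - off i - Z i i + 99 * 10 ^ 38 : ℤ) : ℝ) / 10 ^ 40 := by
  rw [em]
  push_cast
  ring

theorem Am_stoch : IsRowStochastic Am := by
  constructor
  · intro i j
    rw [Am]
    split_ifs with h
    · have h1 : (off i : ℝ) ≤ 10 ^ 40 := by exact_mod_cast off_le i
      have h2 : (off i : ℝ) / 10 ^ 40 ≤ 1 := by rw [div_le_one (by positivity)]; exact h1
      linarith
    · have h1 : (0 : ℝ) ≤ Z i j := by exact_mod_cast nonneg_off i j h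
      positivity
  · intro i
    have h1 : ∀ j, Am i j = (if j = i then 1 - (off i : ℝ) / 10 ^ 40 else 0) +
        ((if j = i then 0 else Z i j : ℤ) : ℝ) / 10 ^ 40 := by
      intro j
      rw [Am]
      split_ifs <;> simp
    simp only [h1]
    rw [Finset.sum_add_distrib, Finset.sum_ite_eq' Finset.univ i, ← Finset.sum_div, ← Int.cast_sum]
    rw [if_pos (Finset.mem_univ i)]
    show 1 - (off i : ℝ) / 10 ^ 40 + (off i : ℝ) / 10 ^ 40 = 1
    ring

theorem cm_Z : cm Z = (10 ^ 40 : ℂ) • ((Am - Matrix.diagonal em).map (algebraMap ℝ ℂ) +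
    (99 / 100 : ℂ) • (1 : Matrix (Fin 20) (Fin 20) ℂ)) := by
  ext i j
  rw [Matrix.smul_apply, Matrix.add_apply, Matrix.smul_apply, Matrix.map_apply, Matrix.sub_apply]
  rcases eq_or_ne j i with rfl | h
  · rw [Matrix.diagonal_apply_eq, Matrix.one_apply_eq]
    have h1 : Am j j - em j = (Z j j : ℝ) / 10 ^ 40 - 99 / 100 := by
      rw [Am, em, if_pos rfl]; ring
    rw [h1]
    show ((Z j j : ℤ) : ℂ) = _
    simp only [smul_eq_mul, Complex.coe_algebraMap]
    push_cast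
    ring
  · rw [Matrix.diagonal_apply_ne _ h.symm, Matrix.one_apply_ne h.symm]
    have h1 : Am i j - 0 = (Z i j : ℝ) / 10 ^ 40 := by
      rw [Am, if_neg h, sub_zero]
    rw [h1]
    show ((Z i j : ℤ) : ℂ) = _
    simp only [smul_eq_mul, Complex.coe_algebraMap]
    push_cast
    ring

theorem low_gen (S : ℝ) (hS : 0 ≤ S) (a b c d : ℝ) (z0 z1 z2 z3 : ℝ) (ha : 0 ≤ a) (hb : 0 ≤ b)
    (hc : 0 ≤ c) (hd : 0 ≤ d)
    (h0 : S * a ≤ z0) (h1 : S * b ≤ z1) (h2 : S * c ≤ z2) (h3 : S * d ≤ z3) :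
    (S * a) ^ 17 * ((S * b) * ((S * c) * (S * d))) ≤ z0 ^ 17 * (z1 * (z2 * z3)) := by
  have k0 : 0 ≤ S * a := mul_nonneg hS ha
  have k1 : 0 ≤ S * b := mul_nonneg hS hb
  have k2 : 0 ≤ S * c := mul_nonneg hS hc
  have k3 : 0 ≤ S * d := mul_nonneg hS hd
  have p1 : (S * a) ^ 17 ≤ z0 ^ 17 := pow_le_pow_left₀ k0 h0 17
  have p2 : (S * c) * (S * d) ≤ z2 * z3 := mul_le_mul h2 h3 k3 (k2.trans h2)
  have p3 : (S * b) * ((S * c) * (S * d)) ≤ z1 * (z2 * z3) :=
    mul_le_mul h1 p2 (mul_nonneg k2 k3) (k1.trans h1)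
  exact mul_le_mul p1 p3 (mul_nonneg k1 (mul_nonneg k2 k3)) (pow_nonneg (k0.trans h0) 17)

theorem pick (S : ℝ) (hS : 0 ≤ S) (SC : ℂ) (hSC : ‖SC‖ = S) (μ z : ℂ)
    (hz : z = SC * (μ + 99 / 100)) (hgt : 999 / 1000 < ‖μ‖) :
    (S * (9 / 1000)) ^ 17 * ((S * (779 / 1000)) * ((S * (599 / 1000)) * (S * (399 / 1000)))) ≤
      ‖z ^ 17 * ((z - SC * (121 / 100)) * ((z - SC * (139 / 100)) * (z - SC * (159 / 100))))‖ := by
  have h0 : S * (9 / 1000) ≤ ‖z‖ := by
    rw [hz, norm_mul, hSC]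
    have h1 : ‖μ‖ ≤ ‖μ + 99 / 100‖ + ‖(99 / 100 : ℂ)‖ := by
      calc ‖μ‖ = ‖(μ + 99 / 100) - 99 / 100‖ := by rw [add_sub_cancel_right]
        _ ≤ _ := norm_sub_le _ _
    have h2 : ‖(99 / 100 : ℂ)‖ = 99 / 100 := by norm_num
    rw [h2] at h1
    have h3 : (9 / 1000 : ℝ) ≤ ‖μ + 99 / 100‖ := by linarith
    exact mul_le_mul_of_nonneg_left h3 hS
  have hk : ∀ (b c : ℝ) (hb : 0 ≤ b) (hc : b + c ≤ 999 / 1000), S * c ≤
      ‖z - SC * ((99 / 100 + b : ℝ) : ℂ)‖ := by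
    intro b c hb hc
    have e : z - SC * ((99 / 100 + b : ℝ) : ℂ) = SC * (μ - (b : ℂ)) := by
      rw [hz]; push_cast; ring
    rw [e, norm_mul, hSC]
    have h1 : ‖μ‖ - ‖(b : ℂ)‖ ≤ ‖μ - (b : ℂ)‖ := norm_sub_norm_le _ _
    rw [Complex.norm_real, Real.norm_eq_abs, abs_of_nonneg hb] at h1
    have h2 : c ≤ ‖μ - (b : ℂ)‖ := by linarith
    exact mul_le_mul_of_nonneg_left h2 hS
  have h1 := hk (22 / 100) (779 / 1000) (by norm_num) (by norm_num)
  have h2 := hk (40 / 100) (599 / 1000) (by norm_num) (by norm_num)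
  have h3 := hk (60 / 100) (399 / 1000) (by norm_num) (by norm_num)
  have e1 : (((99 / 100 + 22 / 100 : ℝ)) : ℂ) = 121 / 100 := by push_cast; norm_num
  have e2 : (((99 / 100 + 40 / 100 : ℝ)) : ℂ) = 139 / 100 := by push_cast; norm_num
  have e3 : (((99 / 100 + 60 / 100 : ℝ)) : ℂ) = 159 / 100 := by push_cast; norm_num
  rw [e1] at h1
  rw [e2] at h2
  rw [e3] at h3
  rw [norm_mul, norm_pow, norm_mul, norm_mul]
  exact low_gen S hS _ _ _ _ _ _ _ _ (by norm_num) (by norm_num) (by norm_num) (by norm_num)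
    h0 h1 h2 h3

theorem numN : 20 * 10 ^ 762 * 10 ^ 60 < 9 ^ 17 * (779 * (599 * 399)) * 10 ^ 800 := by
  decide +kernel

theorem fin_num (S T : ℝ) (hS : S ^ 20 = 10 ^ 800) (hT : T = 10 ^ 762)
    (h : (S * (9 / 1000)) ^ 17 * ((S * (779 / 1000)) * ((S * (599 / 1000)) * (S * (399 / 1000)))) ≤
      20 * T) : False := by
  have e : (S * (9 / 1000)) ^ 17 * ((S * (779 / 1000)) * ((S * (599 / 1000)) * (S * (399 / 1000)))) =
      (9 ^ 17 * (779 * (599 * 399))) * S ^ 20 / 10 ^ 60 := by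
    ring
  rw [e, div_le_iff₀ (by positivity), hS, hT] at h
  have h2 : (20 * 10 ^ 762 * 10 ^ 60 : ℝ) < 9 ^ 17 * (779 * (599 * 399)) * 10 ^ 800 := by
    exact_mod_cast numN
  exact absurd h (not_le.2 h2)

theorem eig_bound {μ : ℂ} (hμ : μ ∈ spectrum ℂ ((Am - Matrix.diagonal em).map (algebraMap ℝ ℂ))) :
    ‖μ‖ ≤ 999 / 1000 := by
  by_contra hgt
  push Not at hgt
  set Mc := (Am - Matrix.diagonal em).map (algebraMap ℝ ℂ) with hMc
  -- an eigenvector
  have hdet : (algebraMap ℂ (Matrix (Fin 20) (Fin 20) ℂ) μ - Mc).det = 0 := by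
    by_contra hne
    exact hμ ((Matrix.isUnit_iff_isUnit_det _).2 (isUnit_iff_ne_zero.2 hne))
  obtain ⟨v, hv0, hv⟩ := Matrix.exists_mulVec_eq_zero_iff.2 hdet
  have hMv : Mc.mulVec v = μ • v := by
    rw [Matrix.sub_mulVec, sub_eq_zero, Algebra.algebraMap_eq_smul_one, Matrix.smul_mulVec,
      Matrix.one_mulVec] at hv
    exact hv.symm
  obtain ⟨SC, hSC⟩ : ∃ SC : ℂ, SC = 10 ^ 40 := ⟨_, rfl⟩
  obtain ⟨z, hz⟩ : ∃ z : ℂ, z = SC * (μ + 99 / 100) := ⟨_, rfl⟩
  have hZv : (cm (mat 20 rows)).mulVec v = z • v := by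
    have h1 : cm (mat 20 rows) = cm Z := rfl
    rw [h1, cm_Z, ← hSC, Matrix.smul_mulVec, Matrix.add_mulVec, hMv, Matrix.smul_mulVec,
      Matrix.one_mulVec, ← add_smul, smul_smul, ← hz]
  have hle := norm_prod_le rows_wf check_rows hv0 hZv
  have hprod : (shifts.map (fun c : ℤ => z - (c : ℂ))).prod =
      z ^ 17 * ((z - SC * (121 / 100)) * ((z - SC * (139 / 100)) *
        (z - SC * (159 / 100)))) := by
    rw [shifts, List.map_append, List.prod_append, List.map_replicate, List.prod_replicate]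
    simp only [List.map_cons, List.map_nil, List.prod_cons, List.prod_nil, mul_one, Int.cast_zero,
      sub_zero]
    have e1 : ((12100000000000000000000000000000000000000 : ℤ) : ℂ) = SC * (121 / 100) := by
      rw [hSC]; norm_num
    have e2 : ((13900000000000000000000000000000000000000 : ℤ) : ℂ) = SC * (139 / 100) := by
      rw [hSC]; norm_num
    have e3 : ((15900000000000000000000000000000000000000 : ℤ) : ℂ) = SC * (159 / 100) := by
      rw [hSC]; norm_num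
    rw [e1, e2, e3]
  rw [hprod] at hle
  obtain ⟨S, hS⟩ : ∃ S : ℝ, S = 10 ^ 40 := ⟨_, rfl⟩
  have hnS : ‖SC‖ = S := by
    rw [hSC, hS, norm_pow]; norm_num
  have hS0 : 0 ≤ S := by rw [hS]; positivity
  obtain ⟨T, hT⟩ : ∃ T : ℝ, T = ((10 ^ 762 : ℤ) : ℝ) := ⟨_, rfl⟩
  rw [← hT] at hle
  have hlow := (pick S hS0 SC hnS μ z hz hgt).trans hle
  rw [Nat.cast_ofNat] at hlow
  refine fin_num S T ?_ ?_ hlow
  · rw [hS, ← pow_mul]
  · rw [hT, Int.cast_pow, Int.cast_ofNat]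

theorem rho_lt : rho (Am - Matrix.diagonal em) < 1 := by
  have h : rho (Am - Matrix.diagonal em) ≤ ((999 / 1000 : NNReal) : ℝ≥0∞) := by
    rw [rho, spectralRadius]
    refine iSup₂_le ?_
    intro μ hμ
    rw [ENNReal.coe_le_coe, ← NNReal.coe_le_coe, coe_nnnorm]
    have := eig_bound hμ
    simpa using this
  refine lt_of_le_of_lt h ?_
  rw [← ENNReal.coe_one, ENNReal.coe_lt_coe, ← NNReal.coe_lt_coe]
  norm_num

/-- **The assertion of Q1 is false**, also for nonnegative diagonals: for `n = 20` there are a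
row-stochastic `A` and a nonnegative diagonal `e` with `e 0 = 3` and `e j ≤ 8/5` for `j ≠ 0`,
such that the spectral radius of `A - diag e` is less than `1`. -/
theorem result : ¬ Q1 ∧
    ∃ (A : Matrix (Fin 20) (Fin 20) ℝ) (e : Fin 20 → ℝ), IsRowStochastic A ∧ (∀ j, 0 ≤ e j) ∧
      e 0 = 3 ∧ (∀ j, j ≠ 0 → e j ≤ 8 / 5) ∧ rho (A - Matrix.diagonal e) < 1 := by
  have hpos : ∀ j, 0 ≤ em j := by
    intro j
    rw [em_cast]
    have h1 : (0 : ℝ) ≤ ((10 ^ 40 - off j - Z j j + 99 * 10 ^ 38 : ℤ) : ℝ) := by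
      exact_mod_cast em_nonneg j
    positivity
  have h3 : em 0 = 3 := by
    rw [em_cast, em_zero]
    push_cast
    norm_num
  have hle : ∀ j, j ≠ 0 → em j ≤ 8 / 5 := by
    intro j hj
    rw [em_cast, div_le_iff₀ (by positivity)]
    have h1 : ((10 * (10 ^ 40 - off j - Z j j + 99 * 10 ^ 38) : ℤ) : ℝ) ≤ ((16 * 10 ^ 40 : ℤ) : ℝ) := by
      exact_mod_cast em_le j hj
    push_cast at h1 ⊢
    linarith
  refine ⟨?_, Am, em, Am_stoch, hpos, h3, hle, rho_lt⟩
  intro h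
  exact absurd (h 20 (by norm_num) Am em Am_stoch ⟨0, h3.ge⟩) (not_le.2 rho_lt)

end Pool.Agent.Results.MP_7b644b_an.StochasticMinusDiagonal
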